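import Mathlib

/-!
# Convexity of the mean abandonment rate in the M/M/m+M queue

Under both disciplines the mean abandonment rate `ℓ` is strictly increasing, strictly convex and
smooth on `(0, ∞)`, and `ℓ'` increases to `1`.

Proof: `λ ℓ' = Cov (N, L(N)) = λ E α(N)` and `λ ℓ'' = 2 Cov (N, α(N))`, where
`α(i) = (1 / (λ π_i)) ∑_{j > i} π_j (L(j) - ℓ)`. The function `α` is strictly increasing: write
`α(i) = 1 - (μ / λ) r(i)`, with `r(i) = (1 / π_i) ∑_{j > i} π_j (min(j, m) - E min(N, m))`. For
`i ≥ m - 1` the number `r(i)` is a multiple of `P(N > i) / π_i`, and for `i ≤ m` it is given by an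
explicit recursion.
-/

open Filter Topology Finset
open scoped ContDiff

namespace Pool.Agent.Results.MP_e714e3_pr.AbandonmentConvex

/-- The two disciplines. -/
inductive Discipline
  /-- deadline to beginning of service -/
  | DBS
  /-- deadline to end of service -/
  | DES

/-- The total abandonment rate `L(i)` with `i` jobs present (the subtraction of natural numbers is
truncated). -/
noncomputable def abandonRate (D : Discipline) (m : ℕ) (θ : ℝ) (i : ℕ) : ℝ :=
  match D with
  | .DBS => ((i - m : ℕ) : ℝ) * θ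
  | .DES => (i : ℝ) * θ

/-- The death rate `d_i = min (i, m) μ + L(i)`. -/
noncomputable def deathRate (D : Discipline) (m : ℕ) (μ θ : ℝ) (i : ℕ) : ℝ :=
  ((min i m : ℕ) : ℝ) * μ + abandonRate D m θ i

/-- The weights `∏_{j=1}^{i} λ / d_j`. -/
noncomputable def weight (D : Discipline) (m : ℕ) (μ θ lam : ℝ) (i : ℕ) : ℝ :=
  ∏ j ∈ Finset.range i, lam / deathRate D m μ θ (j + 1)

/-- The stationary law `π`. -/
noncomputable def stationary (D : Discipline) (m : ℕ) (μ θ lam : ℝ) (i : ℕ) : ℝ :=
  weight D m μ θ lam i / ∑' j, weight D m μ θ lam j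

/-- The mean abandonment rate `ℓ(λ) = ∑ π_i L(i)`. -/
noncomputable def ell (D : Discipline) (m : ℕ) (μ θ lam : ℝ) : ℝ :=
  ∑' i, stationary D m μ θ lam i * abandonRate D m θ i

/-! ### Power series with infinite radius of convergence -/

/-- The power series with coefficients `a` converges everywhere. -/
def Entire (a : ℕ → ℝ) : Prop := ∀ R : ℝ, 0 ≤ R → Summable fun i => |a i| * R ^ i

/-- The sum of a power series. -/
noncomputable def ser (a : ℕ → ℝ) (x : ℝ) : ℝ := ∑' i, a i * x ^ i

lemma Entire.summable {a : ℕ → ℝ} (h : Entire a) (x : ℝ) : Summable fun i => a i * x ^ i := by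
  refine Summable.of_norm ?_
  refine (h |x| (abs_nonneg x)).congr fun i => ?_
  rw [Real.norm_eq_abs, abs_mul, abs_pow]

lemma Entire.mul_of_le {a b : ℕ → ℝ} (h : Entire a) (C : ℝ) (hb : ∀ i, |b i| ≤ C * 2 ^ i * |a i|) :
    Entire b := by
  intro R hR
  refine Summable.of_nonneg_of_le (fun i => by positivity) (fun i => ?_)
    ((h (2 * R) (by positivity)).mul_left C)
  calc |b i| * R ^ i ≤ (C * 2 ^ i * |a i|) * R ^ i :=
        mul_le_mul_of_nonneg_right (hb i) (by positivity)
    _ = C * (|a i| * (2 * R) ^ i) := by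
        rw [mul_pow]
        ring

lemma nat_le_two_pow (i : ℕ) : (i : ℝ) ≤ 2 ^ i := by
  exact_mod_cast (Nat.lt_two_pow_self (n := i)).le

lemma Entire.mul_nat {a : ℕ → ℝ} (h : Entire a) : Entire (fun i => (i : ℝ) * a i) := by
  refine h.mul_of_le 1 fun i => ?_
  rw [abs_mul, one_mul, abs_of_nonneg (Nat.cast_nonneg i)]
  exact mul_le_mul_of_nonneg_right (nat_le_two_pow i) (abs_nonneg _)

/-- The coefficients of the derivative. -/
def shift (a : ℕ → ℝ) : ℕ → ℝ := fun i => ((i : ℝ) + 1) * a (i + 1)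

lemma Entire.shift {a : ℕ → ℝ} (h : Entire a) : Entire (shift a) := by
  intro R hR
  have h1 := (h.mul_nat) (R + 1) (by linarith)
  have h2 := (summable_nat_add_iff 1).2 h1
  refine Summable.of_nonneg_of_le (fun i => by positivity) (fun i => ?_) h2
  have e : |AbandonmentConvex.shift a i| = |((i + 1 : ℕ) : ℝ) * a (i + 1)| := by
    unfold AbandonmentConvex.shift
    push_cast
    rfl
  rw [e]
  refine mul_le_mul_of_nonneg_left ?_ (abs_nonneg _)
  calc R ^ i ≤ (R + 1) ^ i := pow_le_pow_left₀ hR (by linarith) i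
    _ ≤ (R + 1) ^ (i + 1) := pow_le_pow_right₀ (by linarith) (Nat.le_succ i)

lemma hasDerivAt_ser {a : ℕ → ℝ} (h : Entire a) (x : ℝ) :
    HasDerivAt (ser a) (ser (shift a) x) x := by
  set R : ℝ := |x| + 1 with hR
  have hR0 : 0 ≤ R := by positivity
  have hu : Summable fun i : ℕ => |(i : ℝ) * a i| * (R + 1) ^ i := h.mul_nat _ (by linarith)
  have key := hasDerivAt_tsum_of_isPreconnected (𝕜 := ℝ) (g := fun i y => a i * y ^ i)
    (g' := fun i y => a i * ((i : ℝ) * y ^ (i - 1))) (y₀ := 0) (y := x) (t := Metric.ball 0 R)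
    hu Metric.isOpen_ball (convex_ball (0 : ℝ) R).isPreconnected
    (fun i y _ => (hasDerivAt_pow i y).const_mul (a i))
    (fun i y hy => ?_) (Metric.mem_ball_self (by positivity)) (h.summable 0) (by
      rw [mem_ball_zero_iff, Real.norm_eq_abs, hR]
      linarith)
  · have e : ser (shift a) x = ∑' i, a i * ((i : ℝ) * x ^ (i - 1)) := by
      have hs : Summable fun i : ℕ => a i * ((i : ℝ) * x ^ (i - 1)) := by
        rw [← summable_nat_add_iff 1]
        refine (h.shift.summable x).congr fun i => ?_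
        unfold AbandonmentConvex.shift
        push_cast
        ring
      rw [hs.tsum_eq_zero_add]
      simp only [Nat.cast_zero, zero_mul, mul_zero, zero_add]
      unfold ser AbandonmentConvex.shift
      refine tsum_congr fun i => ?_
      push_cast
      ring
    rw [e]
    exact key
  · have hy' : |y| ≤ R + 1 := by
      rw [mem_ball_zero_iff, Real.norm_eq_abs] at hy
      linarith
    rw [Real.norm_eq_abs, abs_mul, abs_mul, abs_mul, abs_pow,
      abs_of_nonneg (Nat.cast_nonneg i : (0 : ℝ) ≤ i)]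
    have h1 : |y| ^ (i - 1) ≤ (R + 1) ^ i :=
      calc |y| ^ (i - 1) ≤ (R + 1) ^ (i - 1) := pow_le_pow_left₀ (abs_nonneg y) hy' _
        _ ≤ (R + 1) ^ i := pow_le_pow_right₀ (by linarith) (Nat.sub_le i 1)
    calc |a i| * ((i : ℝ) * |y| ^ (i - 1)) ≤ |a i| * ((i : ℝ) * (R + 1) ^ i) := by gcongr
      _ = (i : ℝ) * |a i| * (R + 1) ^ i := by ring

lemma contDiff_ser {a : ℕ → ℝ} (h : Entire a) : ContDiff ℝ ∞ (ser a) := by
  rw [contDiff_infty]
  intro n
  induction n generalizing a with
  | zero =>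
    exact contDiff_zero.2 (continuous_iff_continuousAt.2 fun x => (hasDerivAt_ser h x).continuousAt)
  | succ n ih =>
    have e : ((n + 1 : ℕ) : WithTop ℕ∞) = (n : WithTop ℕ∞) + 1 := by
      push_cast
      rfl
    have e2 : deriv (ser a) = ser (shift a) := funext fun x => (hasDerivAt_ser h x).deriv
    rw [e, contDiff_succ_iff_deriv, e2]
    refine ⟨fun x => (hasDerivAt_ser h x).differentiableAt, fun h' => ?_, ih h.shift⟩
    exact absurd h' (by simp)

lemma mul_ser_shift {a : ℕ → ℝ} (h : Entire a) (x : ℝ) :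
    x * ser (shift a) x = ser (fun i => (i : ℝ) * a i) x := by
  unfold ser
  rw [(h.mul_nat.summable x).tsum_eq_zero_add, ← tsum_mul_left]
  simp only [Nat.cast_zero, zero_mul, zero_add]
  refine tsum_congr fun i => ?_
  unfold AbandonmentConvex.shift
  push_cast
  ring

/-! ### Moments as functions of `λ` -/

/-- The ratio of power series `∑ f_i c_i x^i / ∑ c_i x^i`. -/
noncomputable def mom (c f : ℕ → ℝ) (x : ℝ) : ℝ := ser (fun i => f i * c i) x / ser c x

lemma hasDerivAt_mom {c f : ℕ → ℝ} (hc : Entire c) (hf : Entire (fun i => f i * c i)) {x : ℝ}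
    (hx : 0 < x) (hZ : ser c x ≠ 0) :
    HasDerivAt (mom c f)
      ((mom c (fun i => (i : ℝ) * f i) x - mom c (fun i => (i : ℝ)) x * mom c f x) / x) x := by
  have h1 := (hasDerivAt_ser hf x).div (hasDerivAt_ser hc x) hZ
  have e1 : ser (shift (fun i => f i * c i)) x = ser (fun i => (i : ℝ) * f i * c i) x / x := by
    rw [eq_div_iff hx.ne', mul_comm, mul_ser_shift hf]
    congr 1
    funext i
    ring
  have e2 : ser (shift c) x = ser (fun i => (i : ℝ) * c i) x / x := by
    rw [eq_div_iff hx.ne', mul_comm, mul_ser_shift hc]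
  rw [e1, e2] at h1
  have e3 : (ser (fun i => (i : ℝ) * f i * c i) x / x * ser c x -
      ser (fun i => f i * c i) x * (ser (fun i => (i : ℝ) * c i) x / x)) / ser c x ^ 2 =
      (mom c (fun i => (i : ℝ) * f i) x - mom c (fun i => (i : ℝ)) x * mom c f x) / x := by
    unfold mom
    field_simp
  rw [e3] at h1
  exact h1

/-! ### The analysis for a fixed `λ` -/

/-- A birth-death chain with birth rate `lam` and death rates `d`, and its stationary law `π`. -/
structure Chain (π d : ℕ → ℝ) (lam mu delta : ℝ) (m : ℕ) : Prop where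
  pos : ∀ i, 0 < π i
  sum : HasSum π 1
  bal : ∀ i, π (i + 1) * d (i + 1) = lam * π i
  d_zero : d 0 = 0
  d_le : ∀ i ≤ m, d i = i * delta
  d_mono : StrictMono d
  lam_pos : 0 < lam
  mu_pos : 0 < mu
  mu_le : mu ≤ delta
  m_pos : 1 ≤ m
  moments : ∀ k : ℕ, Summable fun i : ℕ => (i : ℝ) ^ k * π i

section Chain

variable {π d : ℕ → ℝ} {lam mu delta : ℝ} {m : ℕ}

lemma Chain.delta_pos (h : Chain π d lam mu delta m) : 0 < delta := h.mu_pos.trans_le h.mu_le

/-- `min (i, m)` as a real number. -/
noncomputable def mn (m i : ℕ) : ℝ := ((min i m : ℕ) : ℝ)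

/-- `E min (N, m)`. -/
noncomputable def bb (π : ℕ → ℝ) (m : ℕ) : ℝ := ∑' i, π i * mn m i

/-- `(1 / π_i) ∑_{j ≤ i} π_j (E min (N, m) - min (j, m))`. -/
noncomputable def rr (π : ℕ → ℝ) (m i : ℕ) : ℝ :=
  (∑ j ∈ Finset.range (i + 1), π j * (bb π m - mn m j)) / π i

lemma mn_nonneg (m i : ℕ) : 0 ≤ mn m i := Nat.cast_nonneg _

lemma mn_le (m i : ℕ) : mn m i ≤ m := by
  unfold mn
  exact_mod_cast min_le_right i m

lemma summable_mn (h : Chain π d lam mu delta m) : Summable fun i => π i * mn m i := by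
  refine Summable.of_nonneg_of_le (fun i => mul_nonneg (h.pos i).le (mn_nonneg m i)) (fun i => ?_)
    (h.sum.summable.mul_left (m : ℝ))
  rw [mul_comm]
  exact mul_le_mul_of_nonneg_right (mn_le m i) (h.pos i).le

lemma hasSum_d (h : Chain π d lam mu delta m) : HasSum (fun i => π i * d i) lam := by
  rw [← hasSum_nat_add_iff' 1]
  simp only [Finset.range_one, Finset.sum_singleton, h.d_zero, mul_zero, sub_zero]
  have h1 := h.sum.mul_left lam
  rw [mul_one] at h1
  have h2 : (fun i => π (i + 1) * d (i + 1)) = fun i => lam * π i := funext h.bal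
  rw [h2]
  exact h1

/-- `E min (N, m) < m`. -/
lemma bb_lt (h : Chain π d lam mu delta m) : bb π m < m := by
  have h1 : HasSum (fun i => π i * (m : ℝ)) m := by
    have := h.sum.mul_right (m : ℝ)
    rwa [one_mul] at this
  have hm : (1 : ℝ) ≤ m := by exact_mod_cast h.m_pos
  refine hasSum_lt (i := 0) (fun i => ?_) ?_ (summable_mn h).hasSum h1
  · exact mul_le_mul_of_nonneg_left (mn_le m i) (h.pos i).le
  · have : mn m 0 = 0 := by simp [mn]
    show π 0 * mn m 0 < π 0 * (m : ℝ)
    rw [this]
    exact mul_lt_mul_of_pos_left (by linarith) (h.pos 0)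

lemma delta_mn_le (h : Chain π d lam mu delta m) (i : ℕ) : delta * mn m i ≤ d i := by
  rcases le_total i m with hi | hi
  · rw [h.d_le i hi, mn, min_eq_left hi, mul_comm]
  · rw [mn, min_eq_right hi, mul_comm, ← h.d_le m le_rfl]
    exact h.d_mono.monotone hi

/-- `E min (N, m) < lam / delta`. -/
lemma bb_lt' (h : Chain π d lam mu delta m) : bb π m < lam / delta := by
  have h1 := (hasSum_d h).div_const delta
  refine hasSum_lt (i := m + 1) (fun i => ?_) ?_ (summable_mn h).hasSum h1
  · show π i * mn m i ≤ π i * d i / delta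
    rw [le_div_iff₀ h.delta_pos]
    have := mul_le_mul_of_nonneg_left (delta_mn_le h i) (h.pos i).le
    linarith
  · show π (m + 1) * mn m (m + 1) < π (m + 1) * d (m + 1) / delta
    rw [lt_div_iff₀ h.delta_pos]
    have h2 : delta * mn m (m + 1) < d (m + 1) := by
      rw [mn, min_eq_right (Nat.le_succ m), mul_comm, ← h.d_le m le_rfl]
      exact h.d_mono (Nat.lt_succ_self m)
    have := mul_lt_mul_of_pos_left h2 (h.pos (m + 1))
    linarith

lemma rr_zero (h : Chain π d lam mu delta m) : rr π m 0 = bb π m := by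
  unfold rr
  have : mn m 0 = 0 := by simp [mn]
  rw [zero_add, Finset.range_one, Finset.sum_singleton, this, sub_zero, mul_div_assoc, mul_comm,
    div_mul_cancel₀ _ (h.pos 0).ne']

lemma rr_succ (h : Chain π d lam mu delta m) (i : ℕ) :
    rr π m (i + 1) = rr π m i * d (i + 1) / lam + (bb π m - mn m (i + 1)) := by
  unfold rr
  have h1 := h.bal i
  have h2 := (h.pos i).ne'
  have h3 := (h.pos (i + 1)).ne'
  have h4 := h.lam_pos.ne'
  rw [Finset.sum_range_succ _ (i + 1), add_div]
  congr 1
  · rw [div_eq_div_iff h3 h4]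
    have h5 : π (i + 1) * d (i + 1) / π i = lam := by
      rw [h1]
      field_simp
    calc (∑ j ∈ Finset.range (i + 1), π j * (bb π m - mn m j)) * lam
        = (∑ j ∈ Finset.range (i + 1), π j * (bb π m - mn m j)) *
            (π (i + 1) * d (i + 1) / π i) := by rw [h5]
      _ = (∑ j ∈ Finset.range (i + 1), π j * (bb π m - mn m j)) / π i * d (i + 1) * π (i + 1) := by
          ring
  · rw [mul_comm, mul_div_assoc, div_self h3, mul_one]

/-- The sequence `r` decreases on `{0, …, m}`. -/
lemma rr_lt_of_le (h : Chain π d lam mu delta m) (i : ℕ) (hi : i + 1 ≤ m) :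
    rr π m (i + 1) < rr π m i ∧ rr π m i < lam / delta := by
  have hd := h.delta_pos
  have hl := h.lam_pos
  have hg := bb_lt' h
  -- the recursion for `s = r - lam / delta`
  have hrec : ∀ j, j + 1 ≤ m → rr π m (j + 1) - lam / delta =
      (rr π m j - lam / delta) * ((j + 1 : ℝ) * delta / lam) - (lam / delta - bb π m) := by
    intro j hj
    rw [rr_succ h, h.d_le _ hj, mn, min_eq_left hj]
    push_cast
    field_simp
    ring
  induction i with
  | zero =>
    have h1 := hrec 0 hi
    rw [rr_zero h] at h1 ⊢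
    refine ⟨?_, hg⟩
    simp only [Nat.cast_zero, zero_add, one_mul] at h1
    have h2 : (bb π m - lam / delta) * (delta / lam) < 0 :=
      mul_neg_of_neg_of_pos (by linarith) (by positivity)
    linarith
  | succ i ih =>
    have h1 := ih (by omega)
    have h2 := hrec (i + 1) hi
    have h3 := hrec i (by omega)
    have h4 : rr π m (i + 1) < lam / delta := h1.1.trans h1.2
    refine ⟨?_, h4⟩
    have h5 : (rr π m (i + 1) - lam / delta) * (((i + 1 : ℕ) : ℝ) + 1) <
        (rr π m i - lam / delta) * ((i : ℝ) + 1) := by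
      have h6 : rr π m (i + 1) - lam / delta < rr π m i - lam / delta := by linarith [h1.1]
      push_cast
      have h7 : (0 : ℝ) ≤ i := Nat.cast_nonneg i
      nlinarith
    have h8 : (rr π m (i + 1) - lam / delta) * ((((i + 1 : ℕ) : ℝ) + 1) * delta / lam) <
        (rr π m i - lam / delta) * (((i : ℝ) + 1) * delta / lam) := by
      have := mul_lt_mul_of_pos_right h5 (show 0 < delta / lam by positivity)
      calc _ = (rr π m (i + 1) - lam / delta) * (((i + 1 : ℕ) : ℝ) + 1) * (delta / lam) := by ring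
        _ < (rr π m i - lam / delta) * ((i : ℝ) + 1) * (delta / lam) := this
        _ = _ := by ring
    linarith

/-- The tail `P (N > i)`. -/
noncomputable def tail (π : ℕ → ℝ) (i : ℕ) : ℝ := ∑' j, π (j + (i + 1))

lemma summable_tail (h : Chain π d lam mu delta m) (i : ℕ) : Summable fun j => π (j + (i + 1)) :=
  (summable_nat_add_iff (i + 1)).2 h.sum.summable

lemma rr_eq_tail (h : Chain π d lam mu delta m) (i : ℕ) (hi : m ≤ i + 1) :
    rr π m i = (m - bb π m) * (tail π i / π i) := by
  have h1 : Summable fun j => π j * (bb π m - mn m j) := by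
    simp only [mul_sub]
    exact (h.sum.summable.mul_right _).sub (summable_mn h)
  have h2 : ∑' j, π j * (bb π m - mn m j) = 0 := by
    simp only [mul_sub]
    rw [(h.sum.summable.mul_right _).tsum_sub (summable_mn h), tsum_mul_right, h.sum.tsum_eq,
      one_mul]
    exact sub_self _
  have h3 := h1.sum_add_tsum_nat_add (i + 1)
  rw [h2] at h3
  have h4 : ∑' j, π (j + (i + 1)) * (bb π m - mn m (j + (i + 1))) =
      (bb π m - m) * tail π i := by
    unfold tail
    rw [← tsum_mul_left]
    refine tsum_congr fun j => ?_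
    have : mn m (j + (i + 1)) = m := by
      rw [mn, min_eq_right (by omega)]
    rw [this, mul_comm]
  rw [h4] at h3
  unfold rr
  have h5 : ∑ j ∈ Finset.range (i + 1), π j * (bb π m - mn m j) = (m - bb π m) * tail π i := by
    linarith
  rw [h5, mul_div_assoc]

lemma tail_pos (h : Chain π d lam mu delta m) (i : ℕ) : 0 < tail π i :=
  (summable_tail h i).tsum_pos (fun _ => (h.pos _).le) 0 (h.pos _)

lemma tail_ratio_lt (h : Chain π d lam mu delta m) (i : ℕ) :
    tail π (i + 1) / π (i + 1) < tail π i / π i := by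
  rw [div_lt_div_iff₀ (h.pos _) (h.pos _)]
  unfold tail
  rw [← tsum_mul_right, ← tsum_mul_right]
  have key : ∀ j, π (j + (i + 1 + 1)) * π i < π (j + (i + 1)) * π (i + 1) := by
    intro j
    have h1 := h.bal (j + (i + 1))
    have h2 := h.bal i
    have hd1 : d (i + 1) < d (j + (i + 1) + 1) := h.d_mono (by omega)
    have hd0 : 0 < d (i + 1) := by
      rw [← h.d_zero]
      exact h.d_mono (Nat.succ_pos i)
    have hp1 := h.pos (j + (i + 1))
    have hp2 := h.pos (i + 1)
    have e1 : π (j + (i + 1) + 1) = lam * π (j + (i + 1)) / d (j + (i + 1) + 1) := by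
      rw [eq_div_iff (hd0.trans hd1).ne']
      exact h1
    have e2 : π i = π (i + 1) * d (i + 1) / lam := by
      rw [eq_div_iff h.lam_pos.ne', mul_comm]
      exact h2.symm
    have e3 : π (j + (i + 1 + 1)) * π i =
        π (j + (i + 1)) * π (i + 1) * (d (i + 1) / d (j + (i + 1) + 1)) := by
      have : π (j + (i + 1 + 1)) = π (j + (i + 1) + 1) := rfl
      rw [this, e1, e2]
      have := h.lam_pos.ne'
      field_simp
    rw [e3]
    have h3 : d (i + 1) / d (j + (i + 1) + 1) < 1 := (div_lt_one (hd0.trans hd1)).2 hd1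
    have h4 : 0 < π (j + (i + 1)) * π (i + 1) := mul_pos hp1 hp2
    nlinarith
  exact Summable.tsum_lt_tsum (i := 0) (fun j' => (key j').le) (key 0)
    ((summable_tail h (i + 1)).mul_right _) ((summable_tail h i).mul_right _)

/-- The sequence `r` is strictly decreasing. -/
lemma rr_anti (h : Chain π d lam mu delta m) : StrictAnti (rr π m) := by
  refine strictAnti_nat_of_succ_lt fun i => ?_
  rcases le_or_gt (i + 1) m with hi | hi
  · exact (rr_lt_of_le h i hi).1
  · rw [rr_eq_tail h i hi.le, rr_eq_tail h (i + 1) (by omega)]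
    exact mul_lt_mul_of_pos_left (tail_ratio_lt h i) (by linarith [bb_lt h])

lemma rr_pos (h : Chain π d lam mu delta m) (i : ℕ) : 0 < rr π m i := by
  have h1 : 0 < rr π m (max i m) := by
    rw [rr_eq_tail h _ (by omega)]
    exact mul_pos (by linarith [bb_lt h]) (div_pos (tail_pos h _) (h.pos _))
  exact h1.trans_le ((rr_anti h).antitone (le_max_left i m))

/-- The sequence `α`. -/
noncomputable def al (π : ℕ → ℝ) (lam mu : ℝ) (m i : ℕ) : ℝ := 1 - mu / lam * rr π m i

/-- The abandonment rate. -/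
noncomputable def LL (d : ℕ → ℝ) (mu : ℝ) (m i : ℕ) : ℝ := d i - mu * mn m i

/-- The mean abandonment rate. -/
noncomputable def el (π d : ℕ → ℝ) (mu : ℝ) (m : ℕ) : ℝ := ∑' i, π i * LL d mu m i

lemma summable_LL (h : Chain π d lam mu delta m) : Summable fun i => π i * LL d mu m i := by
  unfold LL
  simp only [mul_sub]
  refine (hasSum_d h).summable.sub ?_
  refine ((summable_mn h).mul_left mu).congr fun i => by ring

lemma el_eq (h : Chain π d lam mu delta m) : el π d mu m = lam - mu * bb π m := by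
  unfold el LL bb
  rw [← tsum_mul_left]
  have h1 : Summable fun i => mu * (π i * mn m i) := (summable_mn h).mul_left mu
  rw [← (hasSum_d h).tsum_eq, ← (hasSum_d h).summable.tsum_sub h1]
  exact tsum_congr fun i => by ring

lemma al_mono (h : Chain π d lam mu delta m) : StrictMono (al π lam mu m) := by
  intro i j hij
  unfold al
  have h1 := mul_lt_mul_of_pos_left (rr_anti h hij) (div_pos h.mu_pos h.lam_pos)
  linarith

lemma al_lt_one (h : Chain π d lam mu delta m) (i : ℕ) : al π lam mu m i < 1 := by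
  unfold al
  have := mul_pos (div_pos h.mu_pos h.lam_pos) (rr_pos h i)
  linarith

lemma al_pos (h : Chain π d lam mu delta m) (i : ℕ) : 0 < al π lam mu m i := by
  refine lt_of_lt_of_le ?_ ((al_mono h).monotone (Nat.zero_le i))
  unfold al
  rw [rr_zero h]
  have h1 := mul_lt_mul_of_pos_left (bb_lt' h) (div_pos h.mu_pos h.lam_pos)
  have h2 : mu / lam * (lam / delta) ≤ 1 := by
    have := h.lam_pos.ne'
    have := h.delta_pos.ne'
    have e : mu / lam * (lam / delta) = mu / delta := by field_simp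
    rw [e]
    exact (div_le_one h.delta_pos).2 h.mu_le
  linarith

lemma poisson_zero (h : Chain π d lam mu delta m) :
    LL d mu m 0 - el π d mu m = - (lam * al π lam mu m 0) := by
  have : mn m 0 = 0 := by simp [mn]
  have h2 := h.lam_pos.ne'
  rw [el_eq h, LL, h.d_zero, this, al, rr_zero h]
  field_simp
  ring

lemma poisson_succ (h : Chain π d lam mu delta m) (i : ℕ) :
    LL d mu m (i + 1) - el π d mu m = d (i + 1) * al π lam mu m i - lam * al π lam mu m (i + 1) := by
  have h2 := h.lam_pos.ne'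
  rw [el_eq h, LL, al, al, rr_succ h]
  field_simp
  ring

lemma summable_al (h : Chain π d lam mu delta m) {g : ℕ → ℝ} (hg : Summable fun i => π i * g i) :
    Summable fun i => π i * al π lam mu m i * g i := by
  refine Summable.of_norm_bounded hg.norm fun i => ?_
  rw [norm_mul, norm_mul, norm_mul, Real.norm_eq_abs (al π lam mu m i), abs_of_pos (al_pos h i)]
  have h1 := (al_lt_one h i).le
  have h2 : ‖π i‖ * al π lam mu m i ≤ ‖π i‖ := by
    have := mul_le_mul_of_nonneg_left h1 (norm_nonneg (π i))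
    linarith
  exact mul_le_mul_of_nonneg_right h2 (norm_nonneg _)

/-- Summation by parts. -/
lemma hasSum_parts (h : Chain π d lam mu delta m) {g : ℕ → ℝ} (hg : Summable fun i => π i * g i)
    (hg' : Summable fun i => π i * g (i + 1)) :
    HasSum (fun i => π i * g i * (LL d mu m i - el π d mu m))
      (lam * ∑' i, π i * al π lam mu m i * (g (i + 1) - g i)) := by
  have h1 : HasSum (fun i => lam * (π i * al π lam mu m i * g (i + 1)))
      (lam * ∑' i, π i * al π lam mu m i * g (i + 1)) := (summable_al h hg').hasSum.mul_left lam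
  have h2 : HasSum (fun i => lam * (π i * al π lam mu m i * g i))
      (lam * ∑' i, π i * al π lam mu m i * g i) := (summable_al h hg).hasSum.mul_left lam
  have h3 : HasSum (fun i => if i = 0 then (0 : ℝ) else
      lam * (π (i - 1) * al π lam mu m (i - 1) * g i))
      (lam * ∑' i, π i * al π lam mu m i * g (i + 1)) := by
    rw [← hasSum_nat_add_iff' 1]
    simp only [Finset.range_one, Finset.sum_singleton, if_true, sub_zero]
    have e : (fun n : ℕ => if n + 1 = 0 then (0 : ℝ) else
        lam * (π (n + 1 - 1) * al π lam mu m (n + 1 - 1) * g (n + 1))) =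
        fun i => lam * (π i * al π lam mu m i * g (i + 1)) := by
      funext n
      rw [if_neg (Nat.succ_ne_zero n), Nat.add_sub_cancel]
    rw [e]
    exact h1
  have h4 := h3.sub h2
  have h5 : lam * ∑' i, π i * al π lam mu m i * g (i + 1) - lam * ∑' i, π i * al π lam mu m i * g i =
      lam * ∑' i, π i * al π lam mu m i * (g (i + 1) - g i) := by
    rw [← mul_sub, ← (summable_al h hg').tsum_sub (summable_al h hg)]
    congr 1
    exact tsum_congr fun i => by ring
  rw [h5] at h4
  have h6 : (fun i => π i * g i * (LL d mu m i - el π d mu m)) = fun i =>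
      (if i = 0 then (0 : ℝ) else lam * (π (i - 1) * al π lam mu m (i - 1) * g i)) -
        lam * (π i * al π lam mu m i * g i) := by
    funext i
    rcases i with _ | i
    · rw [poisson_zero h, if_pos rfl]
      ring
    · rw [poisson_succ h, if_neg (Nat.succ_ne_zero i), Nat.add_sub_cancel]
      have := h.bal i
      calc π (i + 1) * g (i + 1) * (d (i + 1) * al π lam mu m i - lam * al π lam mu m (i + 1))
          = (π (i + 1) * d (i + 1)) * (al π lam mu m i * g (i + 1)) -
            lam * (π (i + 1) * al π lam mu m (i + 1) * g (i + 1)) := by ring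
        _ = _ := by
          rw [this]
          ring
  rw [h6]
  exact h4

/-- The expectation under `π`. -/
noncomputable def ex (π f : ℕ → ℝ) : ℝ := ∑' i, π i * f i

lemma summable_pow (h : Chain π d lam mu delta m) (k : ℕ) :
    Summable fun i : ℕ => π i * (i : ℝ) ^ k := by
  refine (h.moments k).congr fun i => mul_comm _ _

lemma summable_pow_succ (h : Chain π d lam mu delta m) (k : ℕ) :
    Summable fun i : ℕ => π i * ((i : ℝ) + 1) ^ k := by
  refine Summable.of_nonneg_of_le (fun i => mul_nonneg (h.pos i).le (by positivity)) (fun i => ?_)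
    (((summable_pow h k).add h.sum.summable).mul_left (2 ^ k : ℝ))
  have h1 : ((i : ℝ) + 1) ^ k ≤ 2 ^ k * ((i : ℝ) ^ k + 1) := by
    rcases Nat.eq_zero_or_pos i with hi | hi
    · rw [hi]
      have : (1 : ℝ) ≤ 2 ^ k := one_le_pow₀ (by norm_num)
      have h3 : (0 : ℝ) ≤ ((0 : ℕ) : ℝ) ^ k := by positivity
      simp only [Nat.cast_zero, zero_add, one_pow] at h3 ⊢
      nlinarith
    · have hi' : (1 : ℝ) ≤ i := by exact_mod_cast hi
      calc ((i : ℝ) + 1) ^ k ≤ (2 * (i : ℝ)) ^ k := pow_le_pow_left₀ (by positivity) (by linarith) k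
        _ = 2 ^ k * (i : ℝ) ^ k := mul_pow _ _ _
        _ ≤ 2 ^ k * ((i : ℝ) ^ k + 1) := by
          refine mul_le_mul_of_nonneg_left (by linarith) (by positivity)
  have := mul_le_mul_of_nonneg_left h1 (h.pos i).le
  linarith

lemma summable_d_pow (h : Chain π d lam mu delta m) (k : ℕ) :
    Summable fun i : ℕ => π i * (d i * (i : ℝ) ^ k) := by
  rw [← summable_nat_add_iff 1]
  refine ((summable_pow_succ h k).mul_left lam).congr fun i => ?_
  have := h.bal i
  push_cast
  calc lam * (π i * ((i : ℝ) + 1) ^ k) = (lam * π i) * ((i : ℝ) + 1) ^ k := by ring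
    _ = π (i + 1) * d (i + 1) * ((i : ℝ) + 1) ^ k := by rw [this]
    _ = _ := by ring

lemma summable_LL_pow (h : Chain π d lam mu delta m) (k : ℕ) :
    Summable fun i : ℕ => π i * (LL d mu m i * (i : ℝ) ^ k) := by
  have h1 : Summable fun i : ℕ => π i * (mn m i * (i : ℝ) ^ k) := by
    refine Summable.of_nonneg_of_le (fun i => ?_) (fun i => ?_)
      ((summable_pow h k).mul_left (m : ℝ))
    · exact mul_nonneg (h.pos i).le (mul_nonneg (mn_nonneg m i) (by positivity))
    · have := mul_le_mul_of_nonneg_left (mn_le m i)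
        (mul_nonneg (h.pos i).le (show (0 : ℝ) ≤ (i : ℝ) ^ k by positivity))
      linarith
  refine ((summable_d_pow h k).sub (h1.mul_left mu)).congr fun i => ?_
  unfold LL
  ring

/-- `Cov (N, L) = λ E α(N) > 0`. -/
lemma cov_pos (h : Chain π d lam mu delta m) :
    0 < ex π (fun i => (i : ℝ) * LL d mu m i) -
      ex π (fun i => (i : ℝ)) * ex π (fun i => LL d mu m i) := by
  set nb := ex π (fun i => (i : ℝ)) with hnb
  have hs1 : Summable fun i : ℕ => π i * (i : ℝ) := by simpa using summable_pow h 1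
  have hs1' : Summable fun i : ℕ => π i * ((i : ℝ) + 1) := by simpa using summable_pow_succ h 1
  have hL0 : Summable fun i : ℕ => π i * LL d mu m i := by simpa using summable_LL_pow h 0
  have hL1 : Summable fun i : ℕ => π i * (LL d mu m i * (i : ℝ)) := by
    simpa using summable_LL_pow h 1
  have key := hasSum_parts h (g := fun i => (i : ℝ)) hs1 (by simpa using hs1')
  have e1 : ∑' i : ℕ, π i * al π lam mu m i * (((i + 1 : ℕ) : ℝ) - (i : ℝ)) =
      ∑' i : ℕ, π i * al π lam mu m i := tsum_congr fun i => by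
    push_cast
    ring
  rw [e1] at key
  have hpos : 0 < ∑' i : ℕ, π i * al π lam mu m i := by
    have hs : Summable fun i : ℕ => π i * al π lam mu m i := by
      have := summable_al h (g := fun _ => 1) (by simpa using h.sum.summable)
      simpa using this
    exact hs.tsum_pos (fun i => (mul_pos (h.pos i) (al_pos h i)).le) 0
      (mul_pos (h.pos 0) (al_pos h 0))
  have e2 : ex π (fun i => (i : ℝ) * LL d mu m i) - nb * ex π (fun i => LL d mu m i) =
      ∑' i : ℕ, π i * (i : ℝ) * (LL d mu m i - el π d mu m) := by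
    have a1 : HasSum (fun i : ℕ => π i * ((i : ℝ) * LL d mu m i))
        (ex π (fun i => (i : ℝ) * LL d mu m i)) := by
      refine Summable.hasSum (hL1.congr fun i => by ring)
    have a2 : HasSum (fun i : ℕ => (π i * (i : ℝ)) * el π d mu m) (nb * el π d mu m) :=
      hs1.hasSum.mul_right _
    have a3 := a1.sub a2
    have : ex π (fun i => LL d mu m i) = el π d mu m := rfl
    rw [this, ← a3.tsum_eq]
    exact tsum_congr fun i => by ring
  rw [e2, key.tsum_eq]
  exact mul_pos h.lam_pos hpos

/-- `Cov (N, α) > 0`. -/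
lemma cov_al_pos (h : Chain π d lam mu delta m) :
    0 < ∑' i : ℕ, π i * al π lam mu m i * ((i : ℝ) - ex π (fun i => (i : ℝ))) := by
  set nb := ex π (fun i => (i : ℝ)) with hnb
  have hs1 : Summable fun i : ℕ => π i * (i : ℝ) := by simpa using summable_pow h 1
  have hnb0 : 0 ≤ nb := tsum_nonneg fun i => mul_nonneg (h.pos i).le (Nat.cast_nonneg i)
  have hg : Summable fun i : ℕ => π i * ((i : ℝ) - nb) := by
    simp only [mul_sub]
    exact hs1.sub (h.sum.summable.mul_right nb)
  have hz : ∑' i : ℕ, π i * ((i : ℝ) - nb) = 0 := by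
    simp only [mul_sub]
    rw [hs1.tsum_sub (h.sum.summable.mul_right nb), tsum_mul_right, h.sum.tsum_eq, one_mul, hnb]
    exact sub_self _
  set i0 := ⌊nb⌋₊ with hi0
  have e : ∑' i : ℕ, π i * al π lam mu m i * ((i : ℝ) - nb) =
      ∑' i : ℕ, π i * ((al π lam mu m i - al π lam mu m i0) * ((i : ℝ) - nb)) := by
    have a1 := (summable_al h hg).hasSum
    have a2 := (hg.mul_left (al π lam mu m i0)).hasSum
    rw [tsum_mul_left, hz, mul_zero] at a2
    have a3 := a1.sub a2
    rw [sub_zero] at a3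
    rw [← a3.tsum_eq]
    exact tsum_congr fun i => by ring
  rw [e]
  have hs : Summable fun i : ℕ =>
      π i * ((al π lam mu m i - al π lam mu m i0) * ((i : ℝ) - nb)) := by
    refine ((summable_al h hg).sub (hg.mul_left (al π lam mu m i0))).congr fun i => by ring
  have hlt : nb < (i0 : ℝ) + 1 := Nat.lt_floor_add_one nb
  have hle : (i0 : ℝ) ≤ nb := Nat.floor_le hnb0
  refine hs.tsum_pos (fun i => ?_) (i0 + 1) ?_
  · refine mul_nonneg (h.pos i).le ?_
    rcases lt_trichotomy i i0 with hi | hi | hi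
    · have h1 := al_mono h hi
      have h2 : (i : ℝ) ≤ i0 := by exact_mod_cast hi.le
      exact mul_nonneg_of_nonpos_of_nonpos (by linarith) (by linarith)
    · rw [hi, sub_self, zero_mul]
    · have h1 := al_mono h hi
      have h2 : (i0 : ℝ) + 1 ≤ i := by exact_mod_cast hi
      exact mul_nonneg (by linarith) (by linarith)
  · refine mul_pos (h.pos _) ?_
    have h1 := al_mono h (Nat.lt_succ_self i0)
    push_cast
    exact mul_pos (by linarith) (by linarith)

/-- The positivity of the second derivative. -/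
lemma second_pos (h : Chain π d lam mu delta m) :
    0 < ex π (fun i => (i : ℝ) * ((i : ℝ) * LL d mu m i)) -
      (2 * ex π (fun i => (i : ℝ)) + 1) * ex π (fun i => (i : ℝ) * LL d mu m i) -
      ex π (fun i => LL d mu m i) * ex π (fun i => (i : ℝ) * (i : ℝ)) +
      ex π (fun i => LL d mu m i) * ex π (fun i => (i : ℝ)) *
        (2 * ex π (fun i => (i : ℝ)) + 1) := by
  set nb := ex π (fun i => (i : ℝ)) with hnb
  have hs1 : Summable fun i : ℕ => π i * (i : ℝ) := by simpa using summable_pow h 1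
  have hs2 : Summable fun i : ℕ => π i * (i : ℝ) ^ 2 := summable_pow h 2
  have hL0 : Summable fun i : ℕ => π i * LL d mu m i := by simpa using summable_LL_pow h 0
  have hL1 : Summable fun i : ℕ => π i * (LL d mu m i * (i : ℝ)) := by
    simpa using summable_LL_pow h 1
  have hL2 : Summable fun i : ℕ => π i * (LL d mu m i * (i : ℝ) ^ 2) := summable_LL_pow h 2
  have hs1' : Summable fun i : ℕ => π i * ((i : ℝ) + 1) := by simpa using summable_pow_succ h 1
  have hs2' : Summable fun i : ℕ => π i * ((i : ℝ) + 1) ^ 2 := summable_pow_succ h 2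
  have key := hasSum_parts h (g := fun i => ((i : ℝ) - nb) ^ 2 - ((i : ℝ) - nb)) (by
      refine ((hs2.sub (hs1.mul_right (2 * nb + 1))).add
        (h.sum.summable.mul_right (nb ^ 2 + nb))).congr fun i => by ring) (by
      refine ((hs2'.sub (hs1'.mul_right (2 * nb + 1))).add
        (h.sum.summable.mul_right (nb ^ 2 + nb))).congr fun i => by
          push_cast
          ring)
  have e1 : ∑' i : ℕ, π i * al π lam mu m i * (((((i + 1 : ℕ) : ℝ) - nb) ^ 2 -
      (((i + 1 : ℕ) : ℝ) - nb)) - (((i : ℝ) - nb) ^ 2 - ((i : ℝ) - nb))) =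
      2 * ∑' i : ℕ, π i * al π lam mu m i * ((i : ℝ) - nb) := by
    rw [← tsum_mul_left]
    refine tsum_congr fun i => ?_
    push_cast
    ring
  rw [e1] at key
  have hpos : 0 < lam * (2 * ∑' i : ℕ, π i * al π lam mu m i * ((i : ℝ) - nb)) :=
    mul_pos h.lam_pos (mul_pos two_pos (cov_al_pos h))
  rw [← key.tsum_eq] at hpos
  refine hpos.trans_eq ?_
  have a1 : HasSum (fun i : ℕ => π i * ((i : ℝ) * ((i : ℝ) * LL d mu m i)))
      (ex π (fun i => (i : ℝ) * ((i : ℝ) * LL d mu m i))) := by
    refine Summable.hasSum (hL2.congr fun i => by ring)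
  have a2 : HasSum (fun i : ℕ => π i * ((i : ℝ) * LL d mu m i))
      (ex π (fun i => (i : ℝ) * LL d mu m i)) := by
    refine Summable.hasSum (hL1.congr fun i => by ring)
  have a3 : HasSum (fun i : ℕ => π i * ((i : ℝ) * (i : ℝ))) (ex π (fun i => (i : ℝ) * (i : ℝ))) := by
    refine Summable.hasSum (hs2.congr fun i => by ring)
  have a4 : HasSum (fun i : ℕ => π i * (i : ℝ)) nb := hs1.hasSum
  have a5 : HasSum (fun i : ℕ => π i * LL d mu m i) (el π d mu m) := hL0.hasSum
  have a6 := (((a1.sub (a2.mul_left (2 * nb + 1))).add (a5.mul_left (nb ^ 2 + nb))).sub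
    ((a3.mul_left (el π d mu m)).sub (a4.mul_left (el π d mu m * (2 * nb + 1))))).sub
      (h.sum.mul_left (el π d mu m * (nb ^ 2 + nb)))
  have e2 : ex π (fun i => LL d mu m i) = el π d mu m := rfl
  rw [e2]
  have e3 : (fun i : ℕ => π i * (((i : ℝ) - nb) ^ 2 - ((i : ℝ) - nb)) *
      (LL d mu m i - el π d mu m)) = fun i : ℕ => (π i * ((i : ℝ) * ((i : ℝ) * LL d mu m i)) -
      (2 * nb + 1) * (π i * ((i : ℝ) * LL d mu m i)) + (nb ^ 2 + nb) * (π i * LL d mu m i) -
      (el π d mu m * (π i * ((i : ℝ) * (i : ℝ))) -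
      el π d mu m * (2 * nb + 1) * (π i * (i : ℝ)))) - el π d mu m * (nb ^ 2 + nb) * π i := by
    funext i
    ring
  rw [e3, a6.tsum_eq]
  ring

end Chain

/-! ### The model -/

section Model

variable (D : Discipline) (m : ℕ) (μ θ : ℝ)

lemma deathRate_zero : deathRate D m μ θ 0 = 0 := by
  cases D <;> simp [deathRate, abandonRate]

/-- The death rate per job if all jobs are in service. -/
def dl (D : Discipline) (μ θ : ℝ) : ℝ :=
  match D with
  | .DBS => μ
  | .DES => μ + θ

lemma deathRate_le {i : ℕ} (hi : i ≤ m) : deathRate D m μ θ i = i * dl D μ θ := by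
  cases D
  · simp only [deathRate, abandonRate, dl]
    rw [min_eq_left hi, Nat.sub_eq_zero_of_le hi]
    simp
  · simp only [deathRate, abandonRate, dl]
    rw [min_eq_left hi]
    ring

variable {D m μ θ}

lemma deathRate_lt (hμ : 0 < μ) (hθ : 0 < θ) (i : ℕ) :
    deathRate D m μ θ i < deathRate D m μ θ (i + 1) := by
  cases D
  · simp only [deathRate, abandonRate]
    rcases le_or_gt (i + 1) m with h | h
    · rw [min_eq_left h, min_eq_left (by omega), Nat.sub_eq_zero_of_le h,
        Nat.sub_eq_zero_of_le (show i ≤ m by omega)]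
      push_cast
      linarith
    · rw [min_eq_right h.le, min_eq_right (by omega)]
      have : i + 1 - m = (i - m) + 1 := by omega
      rw [this]
      push_cast
      linarith
  · simp only [deathRate, abandonRate]
    have h1 : ((min i m : ℕ) : ℝ) ≤ ((min (i + 1) m : ℕ) : ℝ) := by
      exact_mod_cast min_le_min_right m (Nat.le_succ i)
    have h2 := mul_le_mul_of_nonneg_right h1 hμ.le
    push_cast at h2 ⊢
    linarith

lemma deathRate_mono (hμ : 0 < μ) (hθ : 0 < θ) : StrictMono (deathRate D m μ θ) :=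
  strictMono_nat_of_lt_succ (deathRate_lt hμ hθ)

lemma deathRate_pos (hμ : 0 < μ) (hθ : 0 < θ) (i : ℕ) : 0 < deathRate D m μ θ (i + 1) := by
  rw [← deathRate_zero D m μ θ]
  exact deathRate_mono hμ hθ (Nat.succ_pos i)

lemma tendsto_deathRate (hμ : 0 < μ) (hθ : 0 < θ) :
    Tendsto (deathRate D m μ θ) atTop atTop := by
  have h1 : Tendsto (fun i : ℕ => ((i : ℝ) - m) * θ) atTop atTop :=
    (tendsto_atTop_add_const_right _ _ tendsto_natCast_atTop_atTop).atTop_mul_const hθ
  refine tendsto_atTop_mono (fun i => ?_) h1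
  have h2 : 0 ≤ ((min i m : ℕ) : ℝ) * μ := by positivity
  cases D
  · simp only [deathRate, abandonRate]
    have h3 : (i : ℝ) - m ≤ ((i - m : ℕ) : ℝ) := by
      rcases le_total m i with h | h
      · rw [Nat.cast_sub h]
      · rw [Nat.sub_eq_zero_of_le h]
        have : (i : ℝ) ≤ m := by exact_mod_cast h
        simp only [Nat.cast_zero]
        linarith
    have h4 := mul_le_mul_of_nonneg_right h3 hθ.le
    linarith
  · simp only [deathRate, abandonRate]
    have h3 : (0 : ℝ) ≤ m := Nat.cast_nonneg m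
    have h4 : ((i : ℝ) - m) * θ ≤ i * θ := mul_le_mul_of_nonneg_right (by linarith) hθ.le
    linarith

variable (D m μ θ)

/-- The coefficients `∏_{j=1}^{i} 1 / d_j`. -/
noncomputable def cc (i : ℕ) : ℝ := ∏ j ∈ Finset.range i, 1 / deathRate D m μ θ (j + 1)

lemma weight_eq (lam : ℝ) (i : ℕ) : weight D m μ θ lam i = cc D m μ θ i * lam ^ i := by
  unfold weight cc
  induction i with
  | zero => simp
  | succ i ih =>
    rw [Finset.prod_range_succ, ih, Finset.prod_range_succ, pow_succ]
    ring

variable {D m μ θ}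

lemma cc_pos (hμ : 0 < μ) (hθ : 0 < θ) (i : ℕ) : 0 < cc D m μ θ i :=
  Finset.prod_pos fun j _ => one_div_pos.2 (deathRate_pos hμ hθ j)

lemma entire_cc (hμ : 0 < μ) (hθ : 0 < θ) : Entire (cc D m μ θ) := by
  have key : ∀ R : ℝ, 0 < R → Summable fun i => |cc D m μ θ i| * R ^ i := by
    intro R hR
    refine summable_of_ratio_test_tendsto_lt_one (l := 0) one_pos ?_ ?_
    · refine Eventually.of_forall fun i => ?_
      have := cc_pos (D := D) (m := m) hμ hθ i
      positivity
    · have h1 : Tendsto (fun i => R / deathRate D m μ θ (i + 1)) atTop (𝓝 0) :=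
        (Tendsto.div_atTop tendsto_const_nhds (tendsto_deathRate hμ hθ)).comp
          (tendsto_add_atTop_nat 1)
      refine h1.congr fun i => ?_
      have h2 := cc_pos (D := D) (m := m) hμ hθ i
      have h3 := cc_pos (D := D) (m := m) hμ hθ (i + 1)
      have h4 := deathRate_pos (D := D) (m := m) hμ hθ i
      rw [abs_of_pos h2, abs_of_pos h3, Real.norm_of_nonneg (by positivity),
        Real.norm_of_nonneg (by positivity)]
      have h5 : cc D m μ θ (i + 1) = cc D m μ θ i * (1 / deathRate D m μ θ (i + 1)) :=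
        Finset.prod_range_succ _ _
      rw [h5, pow_succ]
      field_simp
  intro R hR
  refine Summable.of_nonneg_of_le (fun i => by positivity) (fun i => ?_) (key (R + 1) (by linarith))
  exact mul_le_mul_of_nonneg_left (pow_le_pow_left₀ hR (by linarith) i) (abs_nonneg _)

lemma abandonRate_nonneg (hθ : 0 < θ) (i : ℕ) : 0 ≤ abandonRate D m θ i := by
  cases D
  · simp only [abandonRate]
    positivity
  · simp only [abandonRate]
    positivity

lemma abandonRate_le (hθ : 0 < θ) (i : ℕ) : abandonRate D m θ i ≤ θ * i := by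
  cases D
  · simp only [abandonRate]
    have : ((i - m : ℕ) : ℝ) ≤ i := by exact_mod_cast Nat.sub_le i m
    have := mul_le_mul_of_nonneg_right this hθ.le
    linarith
  · simp only [abandonRate]
    linarith

lemma entire_L (hμ : 0 < μ) (hθ : 0 < θ) :
    Entire (fun i => abandonRate D m θ i * cc D m μ θ i) := by
  refine (entire_cc (D := D) (m := m) hμ hθ).mul_of_le θ fun i => ?_
  rw [abs_mul, abs_of_nonneg (abandonRate_nonneg hθ i)]
  refine mul_le_mul_of_nonneg_right ((abandonRate_le hθ i).trans ?_) (abs_nonneg _)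
  exact mul_le_mul_of_nonneg_left (nat_le_two_pow i) hθ.le

lemma Z_pos (hμ : 0 < μ) (hθ : 0 < θ) {x : ℝ} (hx : 0 < x) : 0 < ser (cc D m μ θ) x :=
  ((entire_cc hμ hθ).summable x).tsum_pos
    (fun i => (mul_pos (cc_pos hμ hθ i) (pow_pos hx i)).le) 0
    (mul_pos (cc_pos hμ hθ 0) (pow_pos hx 0))

lemma sum_weight (x : ℝ) : ∑' j, weight D m μ θ x j = ser (cc D m μ θ) x := by
  unfold ser
  exact tsum_congr fun i => weight_eq D m μ θ x i

lemma ex_eq_mom (f : ℕ → ℝ) (x : ℝ) :
    ex (stationary D m μ θ x) f = mom (cc D m μ θ) f x := by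
  unfold ex mom stationary
  rw [sum_weight]
  unfold ser
  rw [← tsum_div_const]
  refine tsum_congr fun i => ?_
  rw [weight_eq]
  ring

lemma ell_eq_mom (x : ℝ) : ell D m μ θ x = mom (cc D m μ θ) (abandonRate D m θ) x :=
  ex_eq_mom _ x

lemma entire_pow (hμ : 0 < μ) (hθ : 0 < θ) (k : ℕ) :
    Entire (fun i => (i : ℝ) ^ k * cc D m μ θ i) := by
  induction k with
  | zero =>
    simp only [pow_zero, one_mul]
    exact entire_cc hμ hθ
  | succ k ih =>
    have := ih.mul_nat
    have e : (fun i : ℕ => (i : ℝ) * ((i : ℝ) ^ k * cc D m μ θ i)) =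
        fun i : ℕ => (i : ℝ) ^ (k + 1) * cc D m μ θ i := by
      funext i
      ring
    rwa [e] at this

lemma isChain (hm : 1 ≤ m) (hμ : 0 < μ) (hθ : 0 < θ) {x : ℝ} (hx : 0 < x) :
    Chain (stationary D m μ θ x) (deathRate D m μ θ) x μ (dl D μ θ) m where
  pos i := by
    unfold stationary
    rw [sum_weight, weight_eq]
    exact div_pos (mul_pos (cc_pos hμ hθ i) (pow_pos hx i)) (Z_pos hμ hθ hx)
  sum := by
    have h1 : HasSum (weight D m μ θ x) (ser (cc D m μ θ) x) := by
      have := ((entire_cc (D := D) (m := m) hμ hθ).summable x).hasSum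
      have e : weight D m μ θ x = fun i => cc D m μ θ i * x ^ i := funext (weight_eq D m μ θ x)
      rw [e]
      exact this
    have h2 := h1.div_const (ser (cc D m μ θ) x)
    rw [div_self (Z_pos hμ hθ hx).ne'] at h2
    unfold stationary
    rw [sum_weight]
    exact h2
  bal i := by
    unfold stationary
    have h1 : weight D m μ θ x (i + 1) * deathRate D m μ θ (i + 1) = x * weight D m μ θ x i := by
      unfold weight
      rw [Finset.prod_range_succ]
      have := (deathRate_pos (D := D) (m := m) hμ hθ i).ne'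
      field_simp
    rw [div_mul_eq_mul_div, h1, mul_div_assoc]
  d_zero := deathRate_zero D m μ θ
  d_le i hi := deathRate_le D m μ θ hi
  d_mono := deathRate_mono hμ hθ
  lam_pos := hx
  mu_pos := hμ
  mu_le := by
    cases D
    · exact le_rfl
    · simp only [dl]
      linarith
  m_pos := hm
  moments k := by
    have h1 := ((entire_pow (D := D) (m := m) hμ hθ k).summable x).div_const (ser (cc D m μ θ) x)
    refine h1.congr fun i => ?_
    unfold stationary
    rw [sum_weight, weight_eq]
    ring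

lemma LL_eq : LL (deathRate D m μ θ) μ m = abandonRate D m θ := by
  funext i
  unfold LL deathRate mn
  ring

/-- The derivative of `ℓ`. -/
noncomputable def phi (D : Discipline) (m : ℕ) (μ θ x : ℝ) : ℝ :=
  (mom (cc D m μ θ) (fun i => (i : ℝ) * abandonRate D m θ i) x -
    mom (cc D m μ θ) (fun i => (i : ℝ)) x * mom (cc D m μ θ) (abandonRate D m θ) x) / x

lemma hasDerivAt_ell (hμ : 0 < μ) (hθ : 0 < θ) {x : ℝ} (hx : 0 < x) :
    HasDerivAt (ell D m μ θ) (phi D m μ θ x) x := by
  have h := hasDerivAt_mom (entire_cc hμ hθ) (entire_L (D := D) (m := m) hμ hθ) hx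
    (Z_pos hμ hθ hx).ne'
  have e : ell D m μ θ = mom (cc D m μ θ) (abandonRate D m θ) := funext ell_eq_mom
  rw [e]
  exact h

lemma phi_pos (hm : 1 ≤ m) (hμ : 0 < μ) (hθ : 0 < θ) {x : ℝ} (hx : 0 < x) :
    0 < phi D m μ θ x := by
  have h := cov_pos (isChain (D := D) hm hμ hθ hx)
  rw [LL_eq, ex_eq_mom, ex_eq_mom, ex_eq_mom] at h
  exact div_pos h hx

lemma hasDerivAt_phi (hμ : 0 < μ) (hθ : 0 < θ) {x : ℝ} (hx : 0 < x) :
    HasDerivAt (phi D m μ θ) ((mom (cc D m μ θ) (fun i => (i : ℝ) * ((i : ℝ) * abandonRate D m θ i)) x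
      - (2 * mom (cc D m μ θ) (fun i => (i : ℝ)) x + 1) *
        mom (cc D m μ θ) (fun i => (i : ℝ) * abandonRate D m θ i) x
      - mom (cc D m μ θ) (abandonRate D m θ) x * mom (cc D m μ θ) (fun i => (i : ℝ) * (i : ℝ)) x
      + mom (cc D m μ θ) (abandonRate D m θ) x * mom (cc D m μ θ) (fun i => (i : ℝ)) x *
        (2 * mom (cc D m μ θ) (fun i => (i : ℝ)) x + 1)) / x ^ 2) x := by
  have hZ := (Z_pos (D := D) (m := m) hμ hθ hx).ne'
  have hc := entire_cc (D := D) (m := m) hμ hθ
  have e1 : Entire (fun i => (i : ℝ) * abandonRate D m θ i * cc D m μ θ i) := by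
    have := (entire_L (D := D) (m := m) hμ hθ).mul_nat
    have e : (fun i : ℕ => (i : ℝ) * (abandonRate D m θ i * cc D m μ θ i)) =
        fun i : ℕ => (i : ℝ) * abandonRate D m θ i * cc D m μ θ i := by
      funext i
      ring
    rwa [e] at this
  have e2 : Entire (fun i => (i : ℝ) * cc D m μ θ i) := hc.mul_nat
  have h1 := hasDerivAt_mom hc e1 hx hZ
  have h2 := hasDerivAt_mom (f := fun i => (i : ℝ)) hc e2 hx hZ
  have h3 := hasDerivAt_mom hc (entire_L (D := D) (m := m) hμ hθ) hx hZ
  have h4 := (h1.sub (h2.mul h3)).div (hasDerivAt_id x) hx.ne'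
  have e : (phi D m μ θ) = fun x => (mom (cc D m μ θ) (fun i => (i : ℝ) * abandonRate D m θ i) x -
    mom (cc D m μ θ) (fun i => (i : ℝ)) x * mom (cc D m μ θ) (abandonRate D m θ) x) / x := rfl
  rw [e]
  refine h4.congr_deriv ?_
  simp only [id, Pi.sub_apply, Pi.mul_apply]
  field_simp
  ring

lemma second_pos' (hm : 1 ≤ m) (hμ : 0 < μ) (hθ : 0 < θ) {x : ℝ} (hx : 0 < x) :
    0 < mom (cc D m μ θ) (fun i => (i : ℝ) * ((i : ℝ) * abandonRate D m θ i)) x
      - (2 * mom (cc D m μ θ) (fun i => (i : ℝ)) x + 1) *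
        mom (cc D m μ θ) (fun i => (i : ℝ) * abandonRate D m θ i) x
      - mom (cc D m μ θ) (abandonRate D m θ) x * mom (cc D m μ θ) (fun i => (i : ℝ) * (i : ℝ)) x
      + mom (cc D m μ θ) (abandonRate D m θ) x * mom (cc D m μ θ) (fun i => (i : ℝ)) x *
        (2 * mom (cc D m μ θ) (fun i => (i : ℝ)) x + 1) := by
  have h := second_pos (isChain (D := D) hm hμ hθ hx)
  rw [LL_eq] at h
  simp only [ex_eq_mom] at h
  exact h

lemma deriv_ell (hμ : 0 < μ) (hθ : 0 < θ) {x : ℝ} (hx : 0 < x) :
    deriv (ell D m μ θ) x = phi D m μ θ x := (hasDerivAt_ell hμ hθ hx).deriv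

lemma continuousOn_ell (hμ : 0 < μ) (hθ : 0 < θ) : ContinuousOn (ell D m μ θ) (Set.Ioi 0) :=
  fun _ hx => (hasDerivAt_ell hμ hθ hx).continuousAt.continuousWithinAt

lemma strictMonoOn_phi (hm : 1 ≤ m) (hμ : 0 < μ) (hθ : 0 < θ) :
    StrictMonoOn (phi D m μ θ) (Set.Ioi 0) := by
  refine strictMonoOn_of_deriv_pos (convex_Ioi 0)
    (fun x hx => (hasDerivAt_phi hμ hθ hx).continuousAt.continuousWithinAt) fun x hx => ?_
  rw [interior_Ioi] at hx
  rw [(hasDerivAt_phi hμ hθ hx).deriv]
  exact div_pos (second_pos' hm hμ hθ hx) (pow_pos hx 2)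

lemma ell_bounds (hm : 1 ≤ m) (hμ : 0 < μ) (hθ : 0 < θ) {x : ℝ} (hx : 0 < x) :
    x - μ * m ≤ ell D m μ θ x ∧ ell D m μ θ x ≤ x := by
  have hC := isChain (D := D) hm hμ hθ hx
  have h1 := el_eq hC
  have h2 : el (stationary D m μ θ x) (deathRate D m μ θ) μ m = ell D m μ θ x := by
    unfold el ell
    rw [LL_eq]
  rw [h2] at h1
  have h3 := bb_lt hC
  have h4 : 0 ≤ bb (stationary D m μ θ x) m :=
    tsum_nonneg fun i => mul_nonneg (hC.pos i).le (mn_nonneg m i)
  rw [h1]
  constructor
  · have := mul_lt_mul_of_pos_left h3 hμ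
    linarith
  · have := mul_nonneg hμ.le h4
    linarith

/-- The tangent inequality. -/
lemma ell_slope (hm : 1 ≤ m) (hμ : 0 < μ) (hθ : 0 < θ) {x y : ℝ} (hx : 0 < x) (hxy : x < y) :
    phi D m μ θ x * (y - x) ≤ ell D m μ θ y - ell D m μ θ x ∧
      ell D m μ θ y - ell D m μ θ x ≤ phi D m μ θ y * (y - x) := by
  have hsub : Set.Icc x y ⊆ Set.Ioi 0 := fun z hz => lt_of_lt_of_le hx hz.1
  obtain ⟨ξ, hξ, h1⟩ := exists_hasDerivAt_eq_slope (ell D m μ θ) (phi D m μ θ) hxy
    ((continuousOn_ell hμ hθ).mono hsub)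
    (fun z hz => hasDerivAt_ell hμ hθ (hsub (Set.Ioo_subset_Icc_self hz)))
  have hpos : 0 < y - x := by linarith
  have h2 : ell D m μ θ y - ell D m μ θ x = phi D m μ θ ξ * (y - x) := by
    rw [h1]
    field_simp
  have hmono := strictMonoOn_phi (D := D) hm hμ hθ
  have h3 := hmono (Set.mem_Ioi.2 hx) (Set.mem_Ioi.2 (hx.trans hξ.1)) hξ.1
  have h4 := hmono (Set.mem_Ioi.2 (hx.trans hξ.1)) (Set.mem_Ioi.2 (hx.trans hxy)) hξ.2
  rw [h2]
  exact ⟨mul_le_mul_of_nonneg_right h3.le hpos.le, mul_le_mul_of_nonneg_right h4.le hpos.le⟩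

lemma phi_le_one (hm : 1 ≤ m) (hμ : 0 < μ) (hθ : 0 < θ) {x : ℝ} (hx : 0 < x) :
    phi D m μ θ x ≤ 1 := by
  by_contra hcon
  push Not at hcon
  set s := phi D m μ θ x with hs
  set y := max (x + 1) ((s * x - ell D m μ θ x) / (s - 1) + 1) with hy
  have hxy : x < y := lt_of_lt_of_le (by linarith) (le_max_left _ _)
  have h1 := (ell_slope (D := D) hm hμ hθ hx hxy).1
  have h2 := (ell_bounds (D := D) hm hμ hθ (hx.trans hxy)).2
  rw [← hs] at h1
  have h3 : (s * x - ell D m μ θ x) / (s - 1) < y :=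
    lt_of_lt_of_le (by linarith) (le_max_right _ _)
  have h4 : 0 < s - 1 := by linarith
  rw [div_lt_iff₀ h4] at h3
  nlinarith

lemma phi_ge (hm : 1 ≤ m) (hμ : 0 < μ) (hθ : 0 < θ) {x : ℝ} (hx : 0 < x) :
    1 - 2 * (μ * m) / x ≤ phi D m μ θ x := by
  have h1 := (ell_slope (D := D) hm hμ hθ (show 0 < x / 2 by linarith) (half_lt_self hx)).2
  have h2 := (ell_bounds (D := D) hm hμ hθ hx).1
  have h3 := (ell_bounds (D := D) hm hμ hθ (show 0 < x / 2 by linarith)).2
  have h4 : x / 2 - μ * m ≤ phi D m μ θ x * (x / 2) := by linarith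
  have h5 : 1 - 2 * (μ * m) / x = (x / 2 - μ * m) / (x / 2) := by
    field_simp
  rw [h5, div_le_iff₀ (by linarith)]
  exact h4

lemma tendsto_phi (hm : 1 ≤ m) (hμ : 0 < μ) (hθ : 0 < θ) :
    Tendsto (phi D m μ θ) atTop (𝓝 1) := by
  have h1 : Tendsto (fun x : ℝ => 1 - 2 * (μ * m) / x) atTop (𝓝 (1 - 0)) :=
    tendsto_const_nhds.sub (Tendsto.div_atTop tendsto_const_nhds tendsto_id)
  rw [sub_zero] at h1
  refine tendsto_of_tendsto_of_tendsto_of_le_of_le' h1 tendsto_const_nhds ?_ ?_
  · filter_upwards [eventually_gt_atTop 0] with x hx using phi_ge hm hμ hθ hx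
  · filter_upwards [eventually_gt_atTop 0] with x hx using phi_le_one hm hμ hθ hx

lemma contDiffOn_ell (hμ : 0 < μ) (hθ : 0 < θ) : ContDiffOn ℝ ∞ (ell D m μ θ) (Set.Ioi 0) := by
  have e : ell D m μ θ = fun x => ser (fun i => abandonRate D m θ i * cc D m μ θ i) x /
      ser (cc D m μ θ) x := funext ell_eq_mom
  rw [e]
  exact (contDiff_ser (entire_L hμ hθ)).contDiffOn.div (contDiff_ser (entire_cc hμ hθ)).contDiffOn
    fun x hx => (Z_pos hμ hθ hx).ne'

end Model

/-- Under each discipline, for all `m ≥ 1`, `μ > 0` and `θ > 0`: the stationary law is a probability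
distribution and the series which defines `ℓ` converges; `ℓ` is strictly increasing and strictly
convex on `(0, ∞)`; it is differentiable there, and its derivative is smooth, strictly increasing and
tends to `1`. -/
theorem result (D : Discipline) (m : ℕ) (hm : 1 ≤ m) (μ θ : ℝ) (hμ : 0 < μ) (hθ : 0 < θ) :
    (∀ lam : ℝ, 0 < lam → HasSum (stationary D m μ θ lam) 1 ∧
      Summable fun i => stationary D m μ θ lam i * abandonRate D m θ i) ∧
    StrictMonoOn (ell D m μ θ) (Set.Ioi 0) ∧
    StrictConvexOn ℝ (Set.Ioi 0) (ell D m μ θ) ∧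
    DifferentiableOn ℝ (ell D m μ θ) (Set.Ioi 0) ∧
    ContDiffOn ℝ ∞ (deriv (ell D m μ θ)) (Set.Ioi 0) ∧
    StrictMonoOn (deriv (ell D m μ θ)) (Set.Ioi 0) ∧
    Tendsto (deriv (ell D m μ θ)) atTop (𝓝 1) := by
  have hmono : StrictMonoOn (deriv (ell D m μ θ)) (Set.Ioi 0) := by
    intro x hx y hy hxy
    rw [deriv_ell hμ hθ hx, deriv_ell hμ hθ hy]
    exact strictMonoOn_phi hm hμ hθ hx hy hxy
  refine ⟨fun lam hlam => ?_, ?_, ?_, ?_, ?_, hmono, ?_⟩
  · have hC := isChain (D := D) hm hμ hθ hlam
    refine ⟨hC.sum, ?_⟩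
    have := summable_LL hC
    rwa [LL_eq] at this
  · refine strictMonoOn_of_deriv_pos (convex_Ioi 0) (continuousOn_ell hμ hθ) fun x hx => ?_
    rw [interior_Ioi] at hx
    rw [deriv_ell hμ hθ hx]
    exact phi_pos hm hμ hθ hx
  · refine StrictMonoOn.strictConvexOn_of_deriv (convex_Ioi 0) (continuousOn_ell hμ hθ) ?_
    rw [interior_Ioi]
    exact hmono
  · exact fun x hx => (hasDerivAt_ell hμ hθ hx).differentiableAt.differentiableWithinAt
  · exact (contDiffOn_ell hμ hθ).deriv_of_isOpen isOpen_Ioi (by simp)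
  · refine (tendsto_phi (D := D) hm hμ hθ).congr' ?_
    filter_upwards [eventually_gt_atTop 0] with x hx using (deriv_ell hμ hθ hx).symm

end Pool.Agent.Results.MP_e714e3_pr.AbandonmentConvex
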